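import Pool.Agent.Work.MP_cd2e96_co.Defs
import Pool.Agent.Work.MP_cd2e96_co.Final

/-!
# Disproof of Royle's statement on the largest moduli of chromatic roots of cubic graphs
-/

namespace Pool.Agent.Results.MP_cd2e96_co.RoyleFalse

open Pool.Agent.Work.MP_cd2e96_co

/-- For every `R < 3` there is a connected 3-regular graph, isomorphic neither to `K4` nor to
`K33`, whose largest modulus of a chromatic root is bigger than `R` and bigger than that of
`K33`. -/
theorem result (R : ℝ) (hR : R < 3) : ∃ (n : ℕ) (G : SimpleGraph (Fin n)),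
    G.Connected ∧ IsCubic G ∧ ¬ Nonempty (G ≃g K4) ∧ ¬ Nonempty (G ≃g K33) ∧
      R < rho G ∧ rho K33 < rho G :=
  main hR

end Pool.Agent.Results.MP_cd2e96_co.RoyleFalse
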